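import Pool.Agent.H79.EE.TRQ
import Pool.Agent.H17.EE.XB
import Pool.Agent.H17.EQ.TargetsQ

/-!
# MP_70ba79_ag: module QBA of the board `ee_modules`: in the ultraproduct the quadratic forms of a
curve of small height have a basis with small coefficients
-/

set_option autoImplicit false

open Filter

namespace Pool.Agent.H21.EE

open MvPolynomial SC Pool.Agent.H27.LV Pool.Agent.H17.VG Pool.Agent.H17.BO Pool.Agent.H30.EE
open Pool.Agent.H17.EQ Pool.Agent.H79.EE
open Pool.Agent.H17.EE (exists_leftInv linInd_of_leftInv)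

/-- the matrix `RM` in the ultraproduct -/
theorem qb_RM {K : ℕ → Type} [∀ i, Field (K i)] {L : Type} [Field L] (π : (∀ i, K i) →+* L)
    {n r : ℕ} (z : ∀ i, Fin (r + 1) → Fin (n + 1) → K i) (a : Fin (r * 2 + 1))
    (m : Mon (n + 1) 2) :
    RM 2 (fun a j => π fun i => z i a j) a m = π (fun i => RM 2 (z i) a m) := by
  set P0 : Polynomial (∀ i, K i) := aeval (fun j' : Fin (n + 1) =>
    ∑ a : Fin (r + 1), Polynomial.C (fun i => z i a j' : ∀ i, K i) * Polynomial.X ^ (a : ℕ))
    (monomial (fs m.1) (1 : ∀ i, K i)) with hP0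
  have h1 : P0.map π = resC (fun a j => π fun i => z i a j) (mono L m.1) := by
    rw [hP0, map_aev]
    unfold resC mono
    rw [MvPolynomial.map_monomial, map_one]
    congr 1
    congr 1
    funext j'
    simp only [Polynomial.map_sum, Polynomial.map_mul, Polynomial.map_C, Polynomial.map_pow,
      Polynomial.map_X]
  have h2 : ∀ i, P0.map (Pi.evalRingHom K i) = resC (z i) (mono (K i) m.1) := by
    intro i
    rw [hP0, map_aev]
    unfold resC mono
    rw [MvPolynomial.map_monomial, map_one]
    congr 1
    congr 1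
    funext j'
    simp only [Polynomial.map_sum, Polynomial.map_mul, Polynomial.map_C, Polynomial.map_pow,
      Polynomial.map_X, Pi.evalRingHom_apply]
  unfold RM
  rw [← h1, Polynomial.coeff_map]
  congr 1
  funext i
  rw [← h2, Polynomial.coeff_map, Pi.evalRingHom_apply]

theorem qb_coeff {K : Type} [Field K] {n r : ℕ} (z : Fin (r + 1) → Fin (n + 1) → K)
    (t : Mon (n + 1) 2 → K) (a : Fin (r * 2 + 1)) :
    (resC z (frm t)).coeff a = ∑ m, t m * RM 2 z a m := by
  unfold frm RM resC
  rw [map_sum, Polynomial.finsetSum_coeff]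
  refine Finset.sum_congr rfl fun m _ => ?_
  rw [map_mul, aeval_C, Polynomial.algebraMap_eq, Polynomial.coeff_C_mul]

/-- Cramer -/
theorem qb_cramer {K : Type} [Field K] {n m : ℕ} (R : Fin m → Mon (n + 1) 2 → K)
    (J : Fin m → Mon (n + 1) 2) (hJ : mnr R J ≠ 0) (p : Mon (n + 1) 2) (a : Fin m) :
    ∑ b, (mnr R (Function.update J b p) / mnr R J) * R a (J b) = R a p := by
  classical
  set A : Matrix (Fin m) (Fin m) K := Matrix.of fun a b => R a (J b) with hA
  have hdet : A.det = mnr R J := rfl
  have h1 := congrFun (Matrix.mulVec_cramer A (fun a => R a p)) a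
  rw [Matrix.mulVec, dotProduct, Pi.smul_apply, smul_eq_mul, hdet] at h1
  have h2 : ∀ b, A.cramer (fun a => R a p) b = mnr R (Function.update J b p) := by
    intro b
    rw [Matrix.cramer_apply]
    unfold mnr
    congr 1
    ext a' b'
    rw [Matrix.updateCol_apply, Matrix.of_apply]
    by_cases h : b' = b
    · rw [if_pos h, h, Function.update_self]
    · rw [if_neg h, Function.update_of_ne h, hA, Matrix.of_apply]
  have h3 : ∑ b, (mnr R (Function.update J b p) / mnr R J) * R a (J b) =
      (∑ b, A a b * A.cramer (fun a => R a p) b) / mnr R J := by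
    rw [Finset.sum_div]
    refine Finset.sum_congr rfl fun b _ => ?_
    rw [h2, hA, Matrix.of_apply]
    ring
  rw [h3, h1, mul_div_cancel_left₀ _ hJ]

theorem qb_mnr {K : ℕ → Type} [∀ i, Field (K i)] {L : Type} [Field L] (π : (∀ i, K i) →+* L)
    {n r : ℕ} (z : ∀ i, Fin (r + 1) → Fin (n + 1) → K i)
    (J : Fin (r * 2 + 1) → Mon (n + 1) 2) :
    mnr (RM 2 (fun a j => π fun i => z i a j)) J = π (fun i => mnr (RM 2 (z i)) J) := by
  have h1 : (fun i => mnr (RM 2 (z i)) J) =
      (Matrix.of fun a b : Fin (r * 2 + 1) => fun i => RM 2 (z i) a (J b)).det := by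
    funext i
    have h2 := RingHom.map_det (Pi.evalRingHom K i)
      (Matrix.of fun a b : Fin (r * 2 + 1) => fun i => RM 2 (z i) a (J b))
    exact h2.symm
  rw [h1, RingHom.map_det]
  unfold mnr
  congr 1
  ext a b
  exact qb_RM π z a (J b)

theorem pf_QBA (hQDM : T_QDM) (hHG : T_HG) : T_QBA := by
  classical
  intro k K _ _ _ _ _ _ htr B L _ k' _ _ π hsurj hker hran n r z hz hDa
  -- independence
  choose W hW using fun i => exists_leftInv (hz i)
  have hLI : LinearIndependent L (fun a j => π fun i => z i a j) := by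
    apply linInd_of_leftInv (W := fun l b => π fun i => W i l b)
    intro a b
    have h1 : (fun i => ∑ l, z i a l * W i l b) = (if a = b then 1 else 0 : ∀ i, K i) := by
      funext i
      rw [hW]
      split_ifs <;> rfl
    have h2 : π (fun i => ∑ l, z i a l * W i l b) = if a = b then 1 else 0 := by
      rw [h1]
      split_ifs
      · exact map_one π
      · exact map_zero π
    rw [← h2]
    have h3 : (fun i => ∑ l, z i a l * W i l b) =
        ∑ l, (fun i => z i a l) * (fun i => W i l b) := by
      funext i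
      rw [Finset.sum_apply]
      rfl
    rw [h3, map_sum]
    exact Finset.sum_congr rfl fun l _ => (map_mul π _ _).symm
  refine ⟨hLI, ?_⟩
  set zL : Fin (r + 1) → Fin (n + 1) → L := fun a j => π fun i => z i a j with hzL
  obtain ⟨_, hdeg, _, hRli⟩ := hQDM L r n 2 zL hLI
  obtain ⟨J, hJ⟩ := exists_minor (RM 2 zL) hRli
  have hJ' : mnr (RM 2 zL) J ≠ 0 := hJ
  have hJinj : Function.Injective J := by
    intro b b' hbb
    by_contra hne
    apply hJ
    apply Matrix.det_zero_of_column_eq hne
    intro a
    rw [Matrix.of_apply, Matrix.of_apply, hbb]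
  -- the coefficients are small
  have hsmall : ∀ (b : Fin (r * 2 + 1)) (p : Mon (n + 1) 2), ∃ c : k', algebraMap k' L c =
      mnr (RM 2 zL) (Function.update J b p) / mnr (RM 2 zL) J := by
    intro b p
    have hne : ∀ᶠ i in (hyperfilter ℕ : Filter ℕ), mnr (RM 2 (z i)) J ≠ 0 := by
      have h1 : ¬ ∀ᶠ i in (hyperfilter ℕ : Filter ℕ), mnr (RM 2 (z i)) J = 0 := by
        intro h
        apply hJ'
        rw [hzL, qb_mnr]
        exact (hker _).2 h
      exact Ultrafilter.eventually_not.2 h1
    have h2 : π (fun i => mnr (RM 2 (z i)) (Function.update J b p) / mnr (RM 2 (z i)) J) =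
        mnr (RM 2 zL) (Function.update J b p) / mnr (RM 2 zL) J := by
      rw [eq_div_iff hJ', hzL, qb_mnr, qb_mnr, ← map_mul, ← sub_eq_zero, ← map_sub, hker]
      filter_upwards [hne] with i hi
      rw [Pi.sub_apply, Pi.mul_apply, div_mul_cancel₀ _ hi, sub_self]
    have h3 := (hran (fun i => mnr (RM 2 (z i)) (Function.update J b p) /
      mnr (RM 2 (z i)) J)).2 ⟨1, by
        filter_upwards [hne] with i hi
        obtain ⟨_, _, _, _, h5, _⟩ := hHG (k i) (K i) (htr i) _ (mnr (RM 2 (z i)))
        have h6 := h5 J hi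
        have h7 := (((Pool.Agent.H95.BO.pf_HTA pfm) (k i) (K i) (htr i) 0 0).2.2.2.2 _
          (fun J' => mnr (RM 2 (z i)) J' / mnr (RM 2 (z i)) J)).1 (Function.update J b p)
        have h8 : (h1 (k i) (mnr (RM 2 (z i)) (Function.update J b p) / mnr (RM 2 (z i)) J) : ℤ) ≤
            B i := by
          have h9 := hDa i
          unfold Da at h9
          rw [h6] at h9
          exact le_trans (by exact_mod_cast h7) h9
        rw [one_mul]
        exact_mod_cast h8⟩
    rw [h2] at h3
    exact h3
  choose κ hκ using hsmall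
  -- the forms
  set S : Type := {p : Mon (n + 1) 2 // p ∉ Set.range J} with hS
  have hcard : Fintype.card S + (2 * r + 1) = Fintype.card (Mon (n + 1) 2) := by
    have h1 : Fintype.card {p : Mon (n + 1) 2 // p ∈ Set.range J} = r * 2 + 1 := by
      have := Fintype.card_congr (Equiv.ofInjective J hJinj)
      rw [Fintype.card_fin] at this
      exact this.symm
    have h2 := Fintype.card_subtype_compl (fun p : Mon (n + 1) 2 => p ∈ Set.range J)
    have h3 := Fintype.card_subtype_le (fun p : Mon (n + 1) 2 => p ∈ Set.range J)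
    rw [h1] at h2 h3
    have h4 : Fintype.card S = Fintype.card {p : Mon (n + 1) 2 // ¬ p ∈ Set.range J} := rfl
    omega
  have e : Fin (Fintype.card S) ≃ S := (Fintype.equivFin S).symm
  set q : Fin (Fintype.card S) → Mon (n + 1) 2 → k' := fun l p =>
    (if p = (e l).1 then 1 else 0) - ∑ b, κ b (e l).1 * (if p = J b then 1 else 0) with hq
  refine ⟨Fintype.card S, q, hcard, ?_, ?_⟩
  · rw [Fintype.linearIndependent_iff]
    intro g hg l
    have h1 := congrFun hg (e l).1
    rw [Finset.sum_apply, Pi.zero_apply, Finset.sum_eq_single l] at h1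
    · rw [Pi.smul_apply, smul_eq_mul, hq] at h1
      simp only [if_true] at h1
      have h2 : ∑ b, κ b (e l).1 * (if (e l).1 = J b then 1 else 0) = 0 := by
        apply Finset.sum_eq_zero
        intro b _
        rw [if_neg, mul_zero]
        intro h
        exact (e l).2 ⟨b, h.symm⟩
      rw [h2, sub_zero, mul_one] at h1
      exact h1
    · intro l' _ hl'
      rw [Pi.smul_apply, smul_eq_mul, hq]
      have h3 : (e l).1 ≠ (e l').1 := by
        intro h
        exact hl' (e.injective (Subtype.ext h.symm))
      have h2 : ∑ b, κ b (e l').1 * (if (e l).1 = J b then 1 else 0) = 0 := by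
        apply Finset.sum_eq_zero
        intro b _
        rw [if_neg, mul_zero]
        intro h
        exact (e l).2 ⟨b, h.symm⟩
      simp only [if_neg h3, h2, sub_zero, mul_zero]
    · intro h
      exact absurd (Finset.mem_univ l) h
  · intro l
    have hG : (frm fun a => algebraMap k' L (q l a)).IsHomogeneous 2 := frm_homog _
    ext a
    rw [Polynomial.coeff_zero]
    rcases Nat.lt_or_ge a (r * 2 + 1) with ha | ha
    · have h1 := qb_coeff zL (fun a => algebraMap k' L (q l a)) ⟨a, ha⟩
      have h2 : ((⟨a, ha⟩ : Fin (r * 2 + 1)) : ℕ) = a := rfl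
      rw [h2] at h1
      rw [h1]
      have h3 := qb_cramer (RM 2 zL) J hJ' (e l).1 ⟨a, ha⟩
      have h4 : ∀ p, algebraMap k' L (q l p) * RM 2 zL ⟨a, ha⟩ p =
          (if p = (e l).1 then RM 2 zL ⟨a, ha⟩ p else 0) -
            ∑ b, (if p = J b then (mnr (RM 2 zL) (Function.update J b (e l).1) /
              mnr (RM 2 zL) J) * RM 2 zL ⟨a, ha⟩ p else 0) := by
        intro p
        rw [hq]
        simp only [map_sub, map_sum, map_mul, hκ, sub_mul, Finset.sum_mul]
        congr 1
        · split_ifs
          · rw [map_one, one_mul]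
          · rw [map_zero, zero_mul]
        · refine Finset.sum_congr rfl fun b _ => ?_
          split_ifs
          · rw [map_one, mul_one]
          · rw [map_zero, mul_zero, zero_mul]
      rw [Finset.sum_congr rfl fun p _ => h4 p, Finset.sum_sub_distrib,
        Finset.sum_ite_eq' Finset.univ (e l).1, if_pos (Finset.mem_univ _), Finset.sum_comm]
      have h5 : ∀ b, ∑ p, (if p = J b then (mnr (RM 2 zL) (Function.update J b (e l).1) /
          mnr (RM 2 zL) J) * RM 2 zL ⟨a, ha⟩ p else 0) =
          (mnr (RM 2 zL) (Function.update J b (e l).1) / mnr (RM 2 zL) J) *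
            RM 2 zL ⟨a, ha⟩ (J b) := by
        intro b
        rw [Finset.sum_ite_eq' Finset.univ (J b), if_pos (Finset.mem_univ _)]
      rw [Finset.sum_congr rfl fun b _ => h5 b, h3, sub_self]
    · exact Polynomial.coeff_eq_zero_of_natDegree_lt (lt_of_le_of_lt (hdeg _ hG) (by omega))

end Pool.Agent.H21.EE
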