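import Pool.Agent.H21.EE.UNQ

/-!
# MP_70ba79_ag: module UDC of the board `ee_modules`: descent of the parametrisation
-/

set_option autoImplicit false

namespace Pool.Agent.H21.EE

open MvPolynomial SC Pool.Agent.H27.LV Pool.Agent.H17.VG Pool.Agent.H30.EE

/-- the space of forms is the range of `frL` -/
theorem dc_range (K : Type) [Field K] (n d : ℕ) : LinearMap.range (frL K n d) = Sd K n d := by
  ext g
  constructor
  · rintro ⟨t, rfl⟩
    exact (mem_homogeneousSubmodule _ _).2 (frm_homog t)
  · intro hg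
    exact ⟨_, frm_coeff ((mem_homogeneousSubmodule _ _).1 hg)⟩

theorem dc_inj (K : Type) [Field K] (n d : ℕ) : Function.Injective (frL K n d) := by
  rw [← LinearMap.ker_eq_bot, LinearMap.ker_eq_bot']
  intro t ht
  exact frm_zero ht

theorem dc_finrank (K : Type) [Field K] (n d : ℕ) :
    Module.finrank K (Sd K n d) = Fintype.card (Mon (n + 1) d) := by
  rw [← dc_range, LinearMap.finrank_range_of_inj (dc_inj K n d),
    Module.finrank_fintype_fun_eq_card]

theorem dc_fd (K : Type) [Field K] (n d : ℕ) : FiniteDimensional K (Sd K n d) := by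
  rw [← dc_range]
  infer_instance

theorem dc_resC_map {K K' : Type} [Field K] [Field K'] (φ : K →+* K') {r n : ℕ}
    (z : Fin (r + 1) → Fin (n + 1) → K) (G : MvPolynomial (Fin (n + 1)) K) :
    (resC z G).map φ = resC (fun i j => φ (z i j)) (map φ G) := by
  unfold resC
  rw [aeval_def, aeval_def, eval₂_map, ← Polynomial.coe_mapRingHom, hom_eval₂]
  congr 1
  · ext a
    simp
  · funext i
    rw [map_sum]
    refine Finset.sum_congr rfl fun j _ => ?_
    simp

theorem dc_frm_map {K K' : Type} [Field K] [Field K'] (φ : K →+* K') {n e : ℕ}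
    (t : Mon (n + 1) e → K) : map φ (frm t) = frm (fun f => φ (t f)) := by
  unfold frm mono
  simp

theorem dc_mem_Iz {K : Type} [Field K] {r n a : ℕ} (z : Fin (r + 1) → Fin (n + 1) → K)
    (G : MvPolynomial (Fin (n + 1)) K) : G ∈ Iz a z ↔ G.IsHomogeneous a ∧ resC z G = 0 := by
  unfold Iz
  rw [Submodule.mem_inf, mem_homogeneousSubmodule, LinearMap.mem_ker]
  rfl

/-- the family spans the space of quadratic forms which vanish on the curve -/
theorem dc_span {K : Type} [Field K] (hQDM : T_QDM) {m M : ℕ}
    (z : Fin (m + 1) → Fin (m + 1) → K) (hz : LinearIndependent K z)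
    (w : Fin M → Mon (m + 1) 2 → K) (hw : LinearIndependent K w)
    (hM : M + (2 * m + 1) = Fintype.card (Mon (m + 1) 2)) (hres : ∀ l, resC z (frm (w l)) = 0)
    (G : MvPolynomial (Fin (m + 1)) K) (hG : G.IsHomogeneous 2) (hG0 : resC z G = 0) :
    G ∈ Submodule.span K (Set.range fun l => frm (w l)) := by
  have := dc_fd K m 2
  obtain ⟨_, _, h3, _⟩ := hQDM K m m 2 z hz
  have h4 : Module.finrank K (Iz 2 z) = M := by
    rw [dc_finrank] at h3
    omega
  have hfd : FiniteDimensional K (Iz 2 z) :=
    Submodule.finiteDimensional_of_le (inf_le_left : Iz 2 z ≤ Sd K m 2)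
  have hli : LinearIndependent K (fun l => frm (w l)) := by
    have := hw.map' (frL K m 2) (LinearMap.ker_eq_bot.2 (dc_inj K m 2))
    exact this
  have hle : Submodule.span K (Set.range fun l => frm (w l)) ≤ Iz 2 z := by
    rw [Submodule.span_le]
    rintro _ ⟨l, rfl⟩
    exact (dc_mem_Iz z _).2 ⟨frm_homog _, hres l⟩
  have heq : Submodule.span K (Set.range fun l => frm (w l)) = Iz 2 z := by
    apply Submodule.eq_of_le_of_finrank_eq hle
    rw [h4, finrank_span_eq_card hli, Fintype.card_fin]
  rw [heq]
  exact (dc_mem_Iz z G).2 ⟨hG, hG0⟩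

theorem dc_dir {K : Type} [Field K] {n : ℕ} (w p : Fin (n + 1) → K)
    (G : MvPolynomial (Fin (n + 1)) K) :
    eval p (dir w G) = ∑ i, w i * eval p (pderiv i G) := by
  unfold dir
  rw [map_sum]
  refine Finset.sum_congr rfl fun i _ => ?_
  rw [map_mul, eval_C]

theorem dc_dir_map {K K' : Type} [Field K] [Field K'] (φ : K →+* K') {n : ℕ}
    (w : Fin (n + 1) → K') (y : Fin (n + 1) → K) (G : MvPolynomial (Fin (n + 1)) K) :
    eval (fun i => φ (y i)) (dir w (map φ G)) = ∑ i, w i * φ (eval y (pderiv i G)) := by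
  rw [dc_dir]
  refine Finset.sum_congr rfl fun i _ => ?_
  rw [pderiv_map, eval_map]
  congr 1
  have := hom_eval₂ (pderiv i G) (RingHom.id K) φ y
  rw [RingHom.comp_id] at this
  rw [← this]
  rfl

theorem dc_dir_span {K : Type} [Field K] {n : ℕ} {ι : Type} (w p : Fin (n + 1) → K)
    (F : ι → MvPolynomial (Fin (n + 1)) K) (h : ∀ l, eval p (dir w (F l)) = 0)
    (G : MvPolynomial (Fin (n + 1)) K) (hG : G ∈ Submodule.span K (Set.range F)) :
    eval p (dir w G) = 0 := by
  induction hG using Submodule.span_induction with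
  | mem x hx =>
    obtain ⟨l, rfl⟩ := hx
    exact h l
  | zero => rw [dc_dir]; simp
  | add x y _ _ hx hy =>
    rw [dc_dir] at hx hy ⊢
    simp only [map_add, mul_add, Finset.sum_add_distrib, hx, hy, add_zero]
  | smul a x _ hx =>
    rw [dc_dir] at hx ⊢
    have : ∑ i, w i * eval p (pderiv i (a • x)) = a * ∑ i, w i * eval p (pderiv i x) := by
      rw [Finset.mul_sum]
      refine Finset.sum_congr rfl fun i _ => ?_
      rw [Derivation.map_smul, smul_eval]
      ring
    rw [this, hx, mul_zero]

theorem dc_resC_span {K : Type} [Field K] {r n : ℕ} {ι : Type} (z : Fin (r + 1) → Fin (n + 1) → K)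
    (F : ι → MvPolynomial (Fin (n + 1)) K) (h : ∀ l, resC z (F l) = 0)
    (G : MvPolynomial (Fin (n + 1)) K) (hG : G ∈ Submodule.span K (Set.range F)) :
    resC z G = 0 := by
  unfold resC at h ⊢
  induction hG using Submodule.span_induction with
  | mem x hx =>
    obtain ⟨l, rfl⟩ := hx
    exact h l
  | zero => rw [map_zero]
  | add x y _ _ hx hy => rw [map_add, hx, hy, add_zero]
  | smul a x _ hx => rw [map_smul, hx, smul_zero]

/-- independence is preserved by extension of scalars -/
theorem dc_li_ext {L Ω : Type} [Field L] [Field Ω] [Algebra L Ω] {ι κ : Type} [Fintype ι]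
    (q : ι → κ → L) (hq : LinearIndependent L q) :
    LinearIndependent Ω (fun l f => algebraMap L Ω (q l f)) := by
  rw [Fintype.linearIndependent_iff] at hq ⊢
  intro c hc l
  rw [← Module.forall_dual_apply_eq_zero_iff L]
  intro lam
  apply hq (fun i => lam (c i))
  funext f
  have h1 := congrFun hc f
  rw [Finset.sum_apply] at h1 ⊢
  have h2 : lam (∑ i, (c i • fun f => algebraMap L Ω (q i f)) f) = 0 := by
    rw [h1]
    exact map_zero lam
  rw [map_sum] at h2
  rw [← Pi.zero_apply (M := fun _ : κ => L) f] at h2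
  rw [← h2]
  refine Finset.sum_congr rfl fun i _ => ?_
  rw [Pi.smul_apply, Pi.smul_apply, smul_eq_mul, smul_eq_mul, mul_comm (c i),
    ← Algebra.smul_def, map_smul, smul_eq_mul, mul_comm]

theorem dc_top {K : Type} [Field K] {m : ℕ} (z : Fin (m + 1) → Fin (m + 1) → K)
    (hz : LinearIndependent K z) : Submodule.span K (Set.range z) = ⊤ := by
  apply Submodule.eq_top_of_finrank_eq
  rw [finrank_span_eq_card hz, Fintype.card_fin, Module.finrank_fintype_fun_eq_card,
    Fintype.card_fin]

theorem dc_infinite {K : Type} [Field K] [CharZero K] (b : K) : {t : K | 1 + b * t ≠ 0}.Infinite := by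
  have h1 : {t : K | 1 + b * t = 0}.Finite := by
    apply Set.Subsingleton.finite
    intro s hs t ht
    simp only [Set.mem_ofPred_eq] at hs ht
    have hb : b ≠ 0 := by
      intro h
      rw [h, zero_mul, add_zero] at hs
      exact one_ne_zero hs
    have : b * s = b * t := by linear_combination hs - ht
    exact mul_left_cancel₀ hb this
  exact h1.infinite_compl

theorem dc_eval0 {K : Type} [Field K] {r n : ℕ} (z : Fin (r + 1) → Fin (n + 1) → K)
    (G : MvPolynomial (Fin (n + 1)) K) : eval (z 0) G = (resC z G).eval 0 := by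
  unfold resC
  rw [aeval_def, ← Polynomial.coe_evalRingHom, hom_eval₂, ← eval₂_id]
  congr 1
  · ext a
    simp
  · funext i
    rw [map_sum, Finset.sum_eq_single 0]
    · simp
    · intro b _ hb
      have : (b : ℕ) ≠ 0 := fun h => hb (Fin.ext h)
      simp [this]
    · intro h
      exact absurd (Finset.mem_univ _) h

theorem pf_UDC (hTAN : T_TAN) (hREP : T_REP) (hUNQ : T_UNQ) (hQDM : T_QDM) : T_UDC := by
  classical
  intro L _ _ m M q y z hm hM hq hz hy hres
  obtain ⟨r, rfl⟩ : ∃ r, m = r + 1 := ⟨m - 1, by omega⟩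
  have hz0 : z 0 = fun j => algebraMap L (AlgebraicClosure L) (y j) := funext hy
  set φ : L →+* AlgebraicClosure L := algebraMap L (AlgebraicClosure L) with hφ
  have hφinj : Function.Injective φ := φ.injective
  set w : Fin M → Mon (r + 1 + 1) 2 → AlgebraicClosure L := fun l f => φ (q l f) with hw
  have hwli : LinearIndependent (AlgebraicClosure L) w := dc_li_ext q hq
  have hwmap : ∀ l, frm (w l) = map φ (frm (q l)) := by
    intro l
    rw [dc_frm_map]
  -- the retraction
  obtain ⟨π, hπ⟩ := LinearMap.exists_leftInverse_of_injective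
    (Algebra.linearMap L (AlgebraicClosure L)) (by
      rw [LinearMap.ker_eq_bot]
      exact hφinj)
  have hπ1 : ∀ c : L, π (φ c) = c := by
    intro c
    have := LinearMap.congr_fun hπ c
    simpa using this
  have hπ2 : ∀ (c : L) (x : AlgebraicClosure L), π (x * φ c) = π x * c := by
    intro c x
    rw [mul_comm, hφ, ← Algebra.smul_def, map_smul, smul_eq_mul, mul_comm]
  -- the tangent line
  obtain ⟨htan1, htan2⟩ := hTAN (AlgebraicClosure L) r (r + 1) z hz
  have htop := dc_top z hz
  obtain ⟨g, hg1, _⟩ := un_dual z hz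
  obtain ⟨i0, hi0⟩ : ∃ i0, z 0 i0 ≠ 0 := by
    by_contra hcon
    push Not at hcon
    exact hz.ne_zero 0 (funext hcon)
  set v' : Fin (r + 1 + 1) → AlgebraicClosure L := z 1 - (z 1 i0 / z 0 i0) • z 0 with hv'
  have hv'0 : v' i0 = 0 := by
    rw [hv', Pi.sub_apply, Pi.smul_apply, smul_eq_mul, div_mul_cancel₀ _ hi0, sub_self]
  obtain ⟨i1, hi1⟩ : ∃ i1, v' i1 ≠ 0 := by
    by_contra hcon
    push Not at hcon
    have h1 : v' = 0 := funext hcon
    have h2 : g v' 1 = 0 := by rw [h1, map_zero, Pi.zero_apply]
    rw [hv', map_sub, map_smul, hg1, hg1, Pi.sub_apply, Pi.smul_apply, Pi.single_eq_same,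
      Pi.single_eq_of_ne (by simp), smul_zero, sub_zero] at h2
    exact one_ne_zero h2
  set v : Fin (r + 1 + 1) → AlgebraicClosure L := (v' i1)⁻¹ • v' with hv
  have hv0 : v i0 = 0 := by rw [hv, Pi.smul_apply, hv'0, smul_zero]
  have hv1 : v i1 = 1 := by rw [hv, Pi.smul_apply, smul_eq_mul, inv_mul_cancel₀ hi1]
  have hdir : ∀ (u p : Fin (r + 1 + 1) → AlgebraicClosure L) (c : AlgebraicClosure L) G,
      eval p (dir (c • u) G) = c * eval p (dir u G) := by
    intro u p c G
    rw [dc_dir, dc_dir, Finset.mul_sum]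
    refine Finset.sum_congr rfl fun i _ => ?_
    rw [Pi.smul_apply, smul_eq_mul]
    ring
  have hdirsub : ∀ (u u' p : Fin (r + 1 + 1) → AlgebraicClosure L) G,
      eval p (dir (u - u') G) = eval p (dir u G) - eval p (dir u' G) := by
    intro u u' p G
    rw [dc_dir, dc_dir, dc_dir, ← Finset.sum_sub_distrib]
    refine Finset.sum_congr rfl fun i _ => ?_
    rw [Pi.sub_apply]
    ring
  -- Euler: the base point is in the tangent space
  have hEuler : ∀ G : MvPolynomial (Fin (r + 1 + 1)) (AlgebraicClosure L), G.IsHomogeneous 2 →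
      resC z G = 0 → eval (z 0) (dir (z 0) G) = 0 := by
    intro G hG hG0
    rw [dc_dir]
    have h1 := congrArg (eval (z 0)) hG.sum_X_mul_pderiv
    rw [map_sum] at h1
    simp only [map_mul, eval_X, map_nsmul] at h1
    rw [h1, dc_eval0, hG0, Polynomial.eval_zero, smul_zero]
  have hvtan : ∀ l, ∑ i, v i * φ (eval y (pderiv i (frm (q l)))) = 0 := by
    intro l
    rw [← dc_dir_map, ← hz0, ← hwmap, hv, hdir, hv', hdirsub, hdir,
      htan1 _ (frm_homog _) (hres l), hEuler _ (frm_homog _) (hres l)]
    ring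
  set y1 : Fin (r + 1 + 1) → L := fun i => π (v i) with hy1
  have hy10 : y1 i0 = 0 := by simp only [hy1, hv0, map_zero]
  have hy11 : y1 i1 = 1 := by
    simp only [hy1, hv1]
    rw [← map_one φ, hπ1]
  have hy1tan : ∀ l, ∑ i, y1 i * eval y (pderiv i (frm (q l))) = 0 := by
    intro l
    have h1 := congrArg π (hvtan l)
    rw [map_sum, map_zero] at h1
    rw [← h1]
    refine Finset.sum_congr rfl fun i _ => ?_
    rw [hπ2]
  have hspanz := fun G hG hG0 => dc_span hQDM z hz w hwli hM hres G hG hG0
  have hy1mem : (fun j => φ (y1 j)) ∈ Submodule.span (AlgebraicClosure L) {z 0, z 1} := by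
    apply htan2
    · rw [htop]
      exact Submodule.mem_top
    · intro G hG hG0
      apply dc_dir_span _ _ (fun l => frm (w l)) _ G (hspanz G hG hG0)
      intro l
      rw [hwmap, hz0, dc_dir_map, ← map_zero φ, ← hy1tan l, map_sum]
      refine Finset.sum_congr rfl fun i _ => ?_
      rw [map_mul]
  obtain ⟨b', a, hab⟩ := Submodule.mem_span_pair.1 hy1mem
  have ha : a ≠ 0 := by
    intro ha
    rw [ha, zero_smul, add_zero] at hab
    have h1 := congrFun hab i0
    rw [Pi.smul_apply, smul_eq_mul, hy10, map_zero] at h1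
    have h2 : b' = 0 := by
      rcases mul_eq_zero.1 h1 with h | h
      · exact h
      · exact absurd h hi0
    have h3 := congrFun hab i1
    rw [h2, zero_smul, Pi.zero_apply, hy11, map_one] at h3
    exact zero_ne_one h3
  have hr0 : ((r + 1 : ℕ) : AlgebraicClosure L) ≠ 0 := by
    exact_mod_cast (by omega : r + 1 ≠ 0)
  obtain ⟨z2, hz2, hz20, hz21, hz2s, hz2r⟩ := hREP (AlgebraicClosure L) r (r + 1) z a
    (b' / ((r + 1 : ℕ) : AlgebraicClosure L)) ha hz
  have hz21' : z2 1 = fun j => φ (y1 j) := by
    rw [hz21, ← hab, mul_div_cancel₀ _ hr0]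
    exact add_comm _ _
  have hres2 : ∀ l, resC z2 (frm (w l)) = 0 := by
    intro l
    apply Polynomial.eq_zero_of_infinite_isRoot
    apply (dc_infinite (b' / ((r + 1 : ℕ) : AlgebraicClosure L))).mono
    intro t ht
    have h1 := hz2r (frm (w l)) 2 (frm_homog _) t ht
    have h2 : resC z (frm (w l)) = 0 := hres l
    rw [h2, Polynomial.eval_zero, mul_zero] at h1
    exact h1
  -- the automorphisms
  have hfix : ∀ (σ : AlgebraicClosure L ≃ₐ[L] AlgebraicClosure L) (i j : Fin (r + 1 + 1)),
      σ (z2 i j) = z2 i j := by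
    intro σ
    set zs : Fin (r + 1 + 1) → Fin (r + 1 + 1) → AlgebraicClosure L := fun i j => σ (z2 i j)
      with hzs
    have hσφ : ∀ c : L, σ (φ c) = φ c := fun c => σ.commutes c
    have hzsli : LinearIndependent (AlgebraicClosure L) zs := by
      rw [Fintype.linearIndependent_iff] at hz2 ⊢
      intro c hc i
      have h1 := hz2 (fun i => σ.symm (c i)) (by
        funext j
        have h2 := congrArg σ.symm (congrFun hc j)
        rw [Finset.sum_apply, map_sum, Pi.zero_apply, map_zero] at h2
        rw [Finset.sum_apply, Pi.zero_apply, ← h2]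
        refine Finset.sum_congr rfl fun i _ => ?_
        simp [hzs]) i
      exact (map_eq_zero_iff σ.symm σ.symm.injective).1 h1
    have hress : ∀ l, resC zs (frm (w l)) = 0 := by
      intro l
      have h1 := dc_resC_map (σ : AlgebraicClosure L →+* AlgebraicClosure L) z2 (frm (w l))
      rw [hres2, Polynomial.map_zero, dc_frm_map] at h1
      have h2 : (fun f => (σ : AlgebraicClosure L →+* AlgebraicClosure L) (w l f)) = w l := by
        funext f
        exact hσφ (q l f)
      rw [h2] at h1
      exact h1.symm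
    have heq : zs = z2 := by
      apply hUNQ (AlgebraicClosure L) r (r + 1) z2 zs hz2 hzsli
      · rw [dc_top z2 hz2]
        exact le_top
      · funext j
        simp only [hzs, hz20, hz0, hσφ]
      · funext j
        simp only [hzs, hz21', hσφ]
      · intro G hG hG0
        exact dc_resC_span zs (fun l => frm (w l)) hress G
          (dc_span hQDM z2 hz2 w hwli hM hres2 G hG hG0)
    intro i j
    exact congrFun (congrFun heq i) j
  have hmem : ∀ i j, ∃ c : L, φ c = z2 i j := by
    intro i j
    have h1 := (InfiniteGalois.mem_range_algebraMap_iff_fixed (k := L)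
      (K := AlgebraicClosure L) (z2 i j)).2 (fun σ => hfix σ i j)
    exact h1
  choose z' hz' using hmem
  refine ⟨z', ?_, ?_, ?_⟩
  · rw [Fintype.linearIndependent_iff] at hz2 ⊢
    intro c hc i
    have h1 := hz2 (fun i => φ (c i)) (by
      funext j
      have h2 := congrArg φ (congrFun hc j)
      rw [Finset.sum_apply, map_sum, Pi.zero_apply, map_zero] at h2
      rw [Finset.sum_apply, Pi.zero_apply, ← h2]
      refine Finset.sum_congr rfl fun i _ => ?_
      rw [Pi.smul_apply, Pi.smul_apply, smul_eq_mul, smul_eq_mul, map_mul, hz']) i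
    exact (map_eq_zero_iff φ hφinj).1 h1
  · funext j
    apply hφinj
    rw [hz', hz20, hz0]
  · intro l
    have h1 := dc_resC_map φ z' (frm (q l))
    rw [← hwmap] at h1
    have h2 : (fun i j => φ (z' i j)) = z2 := by
      funext i j
      exact hz' i j
    rw [h2, hres2] at h1
    exact (Polynomial.map_eq_zero φ).1 h1

end Pool.Agent.H21.EE
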