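import Pool.Agent.H30.EE.TargetsU

/-!
# MP_70ba79_ag: module UNQ of the board `ee_modules`: uniqueness of the parametrisation
-/

set_option autoImplicit false

namespace Pool.Agent.H21.EE

open MvPolynomial SC Pool.Agent.H27.LV Pool.Agent.H17.VG Pool.Agent.H30.EE

/-- dual functionals -/
theorem un_dual {K : Type} [Field K] {m n : ℕ} (z : Fin m → Fin (n + 1) → K)
    (hz : LinearIndependent K z) :
    ∃ g : (Fin (n + 1) → K) →ₗ[K] (Fin m → K), (∀ j, g (z j) = Pi.single j 1) ∧
      ∀ w ∈ Submodule.span K (Set.range z), w = ∑ l, g w l • z l := by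
  have hinj : LinearMap.ker (Fintype.linearCombination K z) = ⊥ := by
    rw [LinearMap.ker_eq_bot]
    exact hz.fintypeLinearCombination_injective
  obtain ⟨g, hg⟩ := LinearMap.exists_leftInverse_of_injective (Fintype.linearCombination K z) hinj
  have h1 : ∀ c : Fin m → K, g (∑ l, c l • z l) = c := by
    intro c
    have := LinearMap.congr_fun hg c
    simpa [Fintype.linearCombination_apply] using this
  have h2 : ∀ j, g (z j) = Pi.single j 1 := by
    intro j
    rw [← h1 (Pi.single j 1)]
    congr 1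
    rw [Finset.sum_eq_single j]
    · simp
    · intro b _ hb
      rw [Pi.single_eq_of_ne hb, zero_smul]
    · intro h
      exact absurd (Finset.mem_univ j) h
  refine ⟨g, h2, ?_⟩
  intro w hw
  obtain ⟨c, hc⟩ := (Submodule.mem_span_range_iff_exists_fun K).1 hw
  rw [← hc, h1]

/-- the linear form of a functional -/
noncomputable def un_lf {K : Type} [Field K] {n : ℕ} (μ : (Fin (n + 1) → K) →ₗ[K] K) :
    MvPolynomial (Fin (n + 1)) K := lin (fun i => μ (Pi.single i 1))

theorem un_lf_hom {K : Type} [Field K] {n : ℕ} (μ : (Fin (n + 1) → K) →ₗ[K] K) :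
    (un_lf μ).IsHomogeneous 1 := isHomogeneous_lin _

theorem un_mu {K : Type} [Field K] {n : ℕ} (μ : (Fin (n + 1) → K) →ₗ[K] K) (w : Fin (n + 1) → K) :
    μ w = ∑ i, μ (Pi.single i 1) * w i := by
  conv_lhs => rw [pi_eq_sum_univ' w]
  rw [map_sum]
  refine Finset.sum_congr rfl fun i _ => ?_
  rw [map_smul, smul_eq_mul, mul_comm]

theorem un_resC_lf {K : Type} [Field K] {r n : ℕ} (z : Fin (r + 1) → Fin (n + 1) → K)
    (μ : (Fin (n + 1) → K) →ₗ[K] K) :
    resC z (un_lf μ) = ∑ j, Polynomial.C (μ (z j)) * Polynomial.X ^ (j : ℕ) := by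
  unfold resC un_lf lin
  rw [map_sum]
  have h1 : ∀ i : Fin (n + 1), (aeval fun i => ∑ j, Polynomial.C (z j i) *
      (Polynomial.X : Polynomial K) ^ (j : ℕ)) (C (μ (Pi.single i 1)) * X i) =
      ∑ j, Polynomial.C (μ (Pi.single i 1) * z j i) * Polynomial.X ^ (j : ℕ) := by
    intro i
    rw [map_mul, aeval_X, algHom_C, Finset.mul_sum]
    refine Finset.sum_congr rfl fun j _ => ?_
    rw [Polynomial.algebraMap_eq, Polynomial.C_mul, mul_assoc]
  rw [Finset.sum_congr rfl fun i _ => h1 i, Finset.sum_comm]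
  refine Finset.sum_congr rfl fun j _ => ?_
  rw [un_mu μ (z j), ← Finset.sum_mul, map_sum]

/-- the polynomial argument -/
theorem un_poly {K : Type} [Field K] [CharZero K] (m : ℕ) (hm : 1 ≤ m) (P : ℕ → Polynomial K)
    (hdeg : ∀ l ≤ m, (P l).natDegree ≤ m) (hrel : ∀ l, l < m → P 0 * P (l + 1) = P 1 * P l)
    (h00 : (P 0).coeff 0 = 1) (h01 : (P 0).coeff 1 = 0) (h10 : (P 1).coeff 0 = 0)
    (h11 : (P 1).coeff 1 = 1) (c : ℕ → K)
    (hc : ∑ l ∈ Finset.range (m + 1), Polynomial.C (c l) * P l = 1) :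
    ∀ l ≤ m, P l = Polynomial.X ^ l := by
  classical
  have hP0 : P 0 ≠ 0 := by
    intro h
    rw [h] at h00
    simp at h00
  set g := EuclideanDomain.gcd (P 0) (P 1) with hg
  obtain ⟨A, hA⟩ := EuclideanDomain.gcd_dvd_left (P 0) (P 1)
  obtain ⟨B, hB⟩ := EuclideanDomain.gcd_dvd_right (P 0) (P 1)
  rw [← hg] at hA hB
  have hg0 : g ≠ 0 := by
    intro h
    rw [h, zero_mul] at hA
    exact hP0 hA
  have hA0 : A ≠ 0 := by
    intro h
    rw [h, mul_zero] at hA
    exact hP0 hA
  have hcop : IsCoprime A B := by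
    have h1 := EuclideanDomain.gcd_eq_gcd_ab (P 0) (P 1)
    rw [← hg] at h1
    refine ⟨EuclideanDomain.gcdA (P 0) (P 1), EuclideanDomain.gcdB (P 0) (P 1), ?_⟩
    have h2 : g * (EuclideanDomain.gcdA (P 0) (P 1) * A + EuclideanDomain.gcdB (P 0) (P 1) * B) =
        g * 1 := by
      calc g * (EuclideanDomain.gcdA (P 0) (P 1) * A + EuclideanDomain.gcdB (P 0) (P 1) * B)
          = (g * A) * EuclideanDomain.gcdA (P 0) (P 1) +
              (g * B) * EuclideanDomain.gcdB (P 0) (P 1) := by ring
        _ = g * 1 := by rw [← hA, ← hB, ← h1, mul_one]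
    exact mul_left_cancel₀ hg0 h2
  have hrel' : ∀ l, l < m → A * P (l + 1) = B * P l := by
    intro l hl
    have h1 := hrel l hl
    have h2 : g * (A * P (l + 1)) = g * (B * P l) := by
      rw [← mul_assoc, ← mul_assoc, ← hA, ← hB]
      exact h1
    exact mul_left_cancel₀ hg0 h2
  have hpow : ∀ l, l ≤ m → A ^ l * P l = B ^ l * P 0 := by
    intro l
    induction l with
    | zero => intro _; simp
    | succ l ih =>
      intro hl
      calc A ^ (l + 1) * P (l + 1) = A ^ l * (A * P (l + 1)) := by ring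
        _ = B * (A ^ l * P l) := by rw [hrel' l (by omega)]; ring
        _ = B ^ (l + 1) * P 0 := by rw [ih (by omega)]; ring
  have hdvd : A ^ m ∣ P 0 := by
    have h1 : A ^ m ∣ B ^ m * P 0 := ⟨P m, (hpow m le_rfl).symm⟩
    exact (hcop.pow).dvd_of_dvd_mul_left h1
  obtain ⟨h, hh⟩ := hdvd
  have hPl : ∀ l, l ≤ m → h ∣ P l := by
    intro l hl
    have h1 := hpow l hl
    rw [hh] at h1
    have h2 : A ^ l * P l = A ^ l * (B ^ l * A ^ (m - l) * h) := by
      rw [h1]
      have : A ^ m = A ^ l * A ^ (m - l) := by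
        rw [← pow_add]
        congr 1
        omega
      rw [this]
      ring
    have h3 := mul_left_cancel₀ (pow_ne_zero l hA0) h2
    exact ⟨B ^ l * A ^ (m - l), by rw [h3]; ring⟩
  have hunit : h ∣ 1 := by
    rw [← hc]
    apply Finset.dvd_sum
    intro l hl
    rw [Finset.mem_range] at hl
    exact Dvd.dvd.mul_left (hPl l (by omega)) _
  obtain ⟨u, hu, hu2⟩ := Polynomial.isUnit_iff.1 (isUnit_of_dvd_one hunit)
  have hu0 : u ≠ 0 := hu.ne_zero
  have hdegA : A.natDegree ≤ 1 := by
    have h1 : (P 0).natDegree = m * A.natDegree := by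
      rw [hh, ← hu2, Polynomial.natDegree_mul_C hu0, Polynomial.natDegree_pow]
    have h2 := hdeg 0 (Nat.zero_le _)
    rw [h1] at h2
    nlinarith
  have hAform : A = Polynomial.C (A.coeff 1) * Polynomial.X + Polynomial.C (A.coeff 0) :=
    Polynomial.eq_X_add_C_of_natDegree_le_one hdegA
  have ha0 : A.coeff 0 ≠ 0 := by
    intro h3
    rw [hh, Polynomial.mul_coeff_zero, Polynomial.coeff_zero_eq_eval_zero, Polynomial.eval_pow,
      ← Polynomial.coeff_zero_eq_eval_zero, h3, zero_pow (by omega), zero_mul] at h00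
    exact zero_ne_one h00
  have ha1 : A.coeff 1 = 0 := by
    have h1 : (Polynomial.derivative (P 0)).coeff 0 = 0 := by
      rw [Polynomial.coeff_derivative, h01, zero_mul]
    rw [hh, ← hu2, Polynomial.derivative_mul, Polynomial.derivative_C, mul_zero, add_zero,
      Polynomial.derivative_pow, Polynomial.mul_coeff_zero, Polynomial.mul_coeff_zero,
      Polynomial.mul_coeff_zero, Polynomial.coeff_C_zero, Polynomial.coeff_C_zero,
      Polynomial.coeff_derivative] at h1
    have h2 : (A ^ (m - 1)).coeff 0 = (A.coeff 0) ^ (m - 1) := by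
      rw [Polynomial.coeff_zero_eq_eval_zero, Polynomial.eval_pow,
        ← Polynomial.coeff_zero_eq_eval_zero]
    rw [h2] at h1
    have hm0 : (m : K) ≠ 0 := by exact_mod_cast (by omega : m ≠ 0)
    have h3 : ((A.coeff 0) ^ (m - 1)) ≠ 0 := pow_ne_zero _ ha0
    simp only [zero_add, Nat.cast_zero] at h1
    have h4 : (m : K) * (A.coeff 0) ^ (m - 1) * u * A.coeff 1 = 0 := by
      linear_combination h1
    rcases mul_eq_zero.1 h4 with h5 | h5
    · exact absurd h5 (mul_ne_zero (mul_ne_zero hm0 h3) hu0)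
    · exact h5
  have hP0one : P 0 = 1 := by
    have h1 : A = Polynomial.C (A.coeff 0) := by
      rw [hAform, ha1]
      simp
    have h2 : P 0 = Polynomial.C ((A.coeff 0) ^ m * u) := by
      rw [hh, ← hu2]
      conv_lhs => rw [h1]
      rw [← Polynomial.C_pow, ← Polynomial.C_mul]
    rw [h2, Polynomial.coeff_C_zero] at h00
    rw [h2, h00, Polynomial.C_1]
  have hP1 : ∀ l, l ≤ m → P l = P 1 ^ l := by
    intro l
    induction l with
    | zero => intro _; rw [hP0one, pow_zero]
    | succ l ih =>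
      intro hl
      have h1 := hrel l (by omega)
      rw [hP0one, one_mul] at h1
      rw [h1, ih (by omega), pow_succ']
  have hdeg1 : (P 1).natDegree ≤ 1 := by
    have h1 := hdeg m le_rfl
    rw [hP1 m le_rfl, Polynomial.natDegree_pow] at h1
    nlinarith
  have hP1X : P 1 = Polynomial.X := by
    have h1 := Polynomial.eq_X_add_C_of_natDegree_le_one hdeg1
    rw [h1, h10, h11]
    simp
  intro l hl
  rw [hP1 l hl, hP1X]

theorem pf_UNQ : T_UNQ := by
  classical
  intro K _ _ r n z z' hz hz' hspan h0 h1 hG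
  obtain ⟨g, hg1, hg2⟩ := un_dual z hz
  obtain ⟨g', hg1', _⟩ := un_dual z' hz'
  set lam : Fin (r + 1 + 1) → ((Fin (n + 1) → K) →ₗ[K] K) := fun l => (LinearMap.proj l).comp g
    with hlam
  have hlz : ∀ l j, lam l (z j) = if l = j then 1 else 0 := by
    intro l j
    simp only [hlam, LinearMap.comp_apply, LinearMap.proj_apply, hg1, Pi.single_apply]
  set P : Fin (r + 1 + 1) → Polynomial K := fun l => resC z' (un_lf (lam l)) with hPdef
  have hPform : ∀ l, P l = ∑ j, Polynomial.C (lam l (z' j)) * Polynomial.X ^ (j : ℕ) := by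
    intro l
    exact un_resC_lf z' (lam l)
  have hzX : ∀ l, resC z (un_lf (lam l)) = Polynomial.X ^ (l : ℕ) := by
    intro l
    rw [un_resC_lf, Finset.sum_eq_single l]
    · rw [hlz, if_pos rfl, Polynomial.C_1, one_mul]
    · intro b _ hb
      rw [hlz, if_neg (Ne.symm hb), Polynomial.C_0, zero_mul]
    · intro h
      exact absurd (Finset.mem_univ l) h
  have hcoef : ∀ l (j : Fin (r + 1 + 1)), (P l).coeff j = lam l (z' j) := by
    intro l j
    rw [hPform, Polynomial.finsetSum_coeff, Finset.sum_eq_single j]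
    · rw [Polynomial.coeff_C_mul, Polynomial.coeff_X_pow, if_pos rfl, mul_one]
    · intro b _ hb
      rw [Polynomial.coeff_C_mul, Polynomial.coeff_X_pow, if_neg, mul_zero]
      intro h
      exact hb (Fin.ext h.symm)
    · intro h
      exact absurd (Finset.mem_univ j) h
  have hdeg : ∀ l, (P l).natDegree ≤ r + 1 := by
    intro l
    rw [hPform]
    apply Polynomial.natDegree_sum_le_of_forall_le
    intro j _
    refine (Polynomial.natDegree_C_mul_X_pow_le _ _).trans ?_
    have := j.2
    omega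
  have hrel : ∀ i j i2 j2 : Fin (r + 1 + 1), (i : ℕ) + j = (i2 : ℕ) + j2 →
      P i * P j = P i2 * P j2 := by
    intro i j i2 j2 hij
    have h2 := hG (un_lf (lam i) * un_lf (lam j) - un_lf (lam i2) * un_lf (lam j2)) (by
      apply IsHomogeneous.sub
      · exact (un_lf_hom _).mul (un_lf_hom _)
      · exact (un_lf_hom _).mul (un_lf_hom _)) (by
      unfold resC at hzX ⊢
      rw [map_sub, map_mul, map_mul, hzX, hzX, hzX, hzX, ← pow_add, ← pow_add, hij, sub_self])
    have h3 : P i * P j - P i2 * P j2 = 0 := by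
      rw [← h2]
      simp only [hPdef]
      unfold resC
      rw [map_sub, map_mul, map_mul]
    exact sub_eq_zero.1 h3
  set Q : ℕ → Polynomial K := fun l => if h : l < r + 1 + 1 then P ⟨l, h⟩ else 0 with hQ
  have hQv : ∀ (l : ℕ) (h : l < r + 1 + 1), Q l = P ⟨l, h⟩ := by
    intro l h
    simp only [hQ, dif_pos h]
  -- the constant 1 is a combination of the polynomials
  have hone : ∑ l : Fin (r + 1 + 1), Polynomial.C ((g' (z l)) 0) * P l = 1 := by
    have key : ∀ j, ∑ l, (g' (z l)) 0 * lam l (z' j) = if j = 0 then 1 else 0 := by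
      intro j
      have h2 := hg2 (z' j) (hspan (Submodule.subset_span ⟨j, rfl⟩))
      have h3 : g' (z' j) 0 = ∑ l, g (z' j) l * (g' (z l)) 0 := by
        conv_lhs => rw [h2]
        rw [map_sum, Finset.sum_apply]
        refine Finset.sum_congr rfl fun l _ => ?_
        rw [map_smul, Pi.smul_apply, smul_eq_mul]
      rw [hg1', Pi.single_apply] at h3
      have h4 : (if (0 : Fin (r + 1 + 1)) = j then (1 : K) else 0) = if j = 0 then 1 else 0 := by
        by_cases hj : j = 0
        · simp [hj]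
        · simp [hj, Ne.symm hj]
      rw [← h4, h3]
      refine Finset.sum_congr rfl fun l _ => ?_
      rw [mul_comm]
      rfl
    have h5 : ∑ l : Fin (r + 1 + 1), Polynomial.C ((g' (z l)) 0) * P l =
        ∑ j : Fin (r + 1 + 1), Polynomial.C (∑ l, (g' (z l)) 0 * lam l (z' j)) *
          Polynomial.X ^ (j : ℕ) := by
      simp_rw [hPform, Finset.mul_sum, map_sum, Finset.sum_mul]
      rw [Finset.sum_comm]
      refine Finset.sum_congr rfl fun j _ => Finset.sum_congr rfl fun l _ => ?_
      rw [Polynomial.C_mul, mul_assoc]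
    rw [h5, Finset.sum_eq_single 0]
    · rw [key, if_pos rfl, Polynomial.C_1, one_mul]
      simp
    · intro b _ hb
      rw [key, if_neg hb, Polynomial.C_0, zero_mul]
    · intro h
      exact absurd (Finset.mem_univ _) h
  have h0' : (0 : ℕ) < r + 1 + 1 := by omega
  have h1' : (1 : ℕ) < r + 1 + 1 := by omega
  have e0 : (⟨0, h0'⟩ : Fin (r + 1 + 1)) = 0 := rfl
  have e1 : (⟨1, h1'⟩ : Fin (r + 1 + 1)) = 1 := rfl
  have hmain := un_poly (r + 1) (by omega) Q
    (by
      intro l hl
      rw [hQv l (by omega)]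
      exact hdeg _)
    (by
      intro l hl
      rw [hQv 0 h0', hQv (l + 1) (by omega), hQv 1 h1', hQv l (by omega)]
      apply hrel
      simp only
      omega)
    (by
      rw [hQv 0 h0', e0]
      have := hcoef 0 0
      rw [h0, hlz, if_pos rfl] at this
      exact this)
    (by
      rw [hQv 0 h0', e0]
      have := hcoef 0 1
      rw [h1, hlz, if_neg (by simp)] at this
      exact this)
    (by
      rw [hQv 1 h1', e1]
      have := hcoef 1 0
      rw [h0, hlz, if_neg (by simp)] at this
      exact this)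
    (by
      rw [hQv 1 h1', e1]
      have := hcoef 1 1
      rw [h1, hlz, if_pos rfl] at this
      exact this)
    (fun l => if h : l < r + 1 + 1 then (g' (z ⟨l, h⟩)) 0 else 0)
    (by
      rw [← hone, Finset.sum_range]
      refine Finset.sum_congr rfl fun l _ => ?_
      rw [hQv l.1 l.2]
      simp only [l.2, dif_pos])
  have hPX : ∀ l : Fin (r + 1 + 1), P l = Polynomial.X ^ (l : ℕ) := by
    intro l
    have h2 := hmain l.1 (by have := l.2; omega)
    rw [hQv l.1 l.2] at h2
    exact h2
  funext j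
  have h2 := hg2 (z' j) (hspan (Submodule.subset_span ⟨j, rfl⟩))
  rw [h2, Finset.sum_eq_single j]
  · have h3 := hcoef j j
    rw [hPX, Polynomial.coeff_X_pow, if_pos rfl] at h3
    have h4 : g (z' j) j = 1 := h3.symm
    rw [h4, one_smul]
  · intro b _ hb
    have h3 := hcoef b j
    rw [hPX, Polynomial.coeff_X_pow, if_neg (fun h => hb (Fin.ext h.symm))] at h3
    have h4 : g (z' j) b = 0 := h3.symm
    rw [h4, zero_smul]
  · intro h
    exact absurd (Finset.mem_univ _) h

end Pool.Agent.H21.EE
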